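import Pool.Agent.W845.PM.Base

set_option autoImplicit false
open scoped Classical
open Filter Topology MeasureTheory ProbabilityTheory
open scoped ENNReal NNReal BigOperators

namespace Pool.Agent.W883.PM

open Pool.Agent.W845.PM

noncomputable section

/-- indicator of no edges between two sets -/
def ind {n : ℕ} (X Y : Finset (Fin n)) (G : SimpleGraph (Fin n)) : ℝ :=
  if ∀ x ∈ X, ∀ y ∈ Y, ¬ G.Adj x y then (1 : ℝ) else 0

theorem ind_symm {n : ℕ} (X Y : Finset (Fin n)) (G : SimpleGraph (Fin n)) : ind X Y G = ind Y X G := by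
  unfold ind
  congr 1
  apply propext
  exact ⟨fun h x hx y hy hxy => h y hy x hx hxy.symm, fun h x hx y hy hxy => h y hy x hx hxy.symm⟩

theorem ind_nonneg {n : ℕ} (X Y : Finset (Fin n)) (G : SimpleGraph (Fin n)) : 0 ≤ ind X Y G := by
  unfold ind
  split_ifs <;> norm_num

/-- the part of `X` below the last element -/
def low {n : ℕ} (X : Finset (Fin (n + 1))) : Finset (Fin n) :=
  Finset.univ.filter (fun x => Fin.castSucc x ∈ X)

theorem mem_low {n : ℕ} {X : Finset (Fin (n + 1))} {x : Fin n} : x ∈ low X ↔ Fin.castSucc x ∈ X := by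
  simp [low]

theorem card_low {n : ℕ} (X : Finset (Fin (n + 1))) :
    X.card = (low X).card + if Fin.last n ∈ X then 1 else 0 := by
  have h1 : X.filter (fun x => x ≠ Fin.last n) = (low X).map Fin.castSuccEmb := by
    ext a
    simp only [Finset.mem_filter, Finset.mem_map, mem_low]
    constructor
    · rintro ⟨ha, hb⟩
      obtain ⟨b, rfl⟩ := Fin.exists_castSucc_eq.2 hb
      exact ⟨b, ha, rfl⟩
    · rintro ⟨b, hb, rfl⟩
      exact ⟨hb, (Fin.castSucc_lt_last b).ne⟩
  have h2 := Finset.card_filter_add_card_filter_not (s := X) (fun x => x = Fin.last n)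
  have h3 : (X.filter (fun x => ¬ x = Fin.last n)).card = (low X).card := by
    have h5 := congrArg Finset.card h1
    rw [Finset.card_map] at h5
    exact h5
  have h4 : (X.filter (fun x => x = Fin.last n)).card = if Fin.last n ∈ X then 1 else 0 := by
    rw [Finset.filter_eq']
    split_ifs <;> simp
  omega

theorem prod_id (n : ℕ) (p : ℝ) (a : Fin n → ℝ) :
    ∑ N : Finset (Fin n), ws n p N * ∏ w ∈ N, a w = ∏ w, (1 - p + p * a w) := by
  have h := Finset.prod_add (fun w => p * a w) (fun _ : Fin n => 1 - p) Finset.univ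
  have h2 : ∏ w : Fin n, (1 - p + p * a w) = ∏ w : Fin n, (p * a w + (1 - p)) :=
    Finset.prod_congr rfl fun w _ => by ring
  rw [h2, h, Finset.powerset_univ]
  refine Finset.sum_congr rfl fun N _ => ?_
  rw [Finset.prod_mul_distrib, Finset.prod_const, Finset.prod_const]
  have : (Finset.univ \ N).card = n - N.card := by
    rw [← Finset.compl_eq_univ_sdiff, Finset.card_compl, Fintype.card_fin]
  rw [this]
  unfold ws
  ring

theorem sum_disj (n : ℕ) (p : ℝ) (Y : Finset (Fin n)) :
    ∑ N : Finset (Fin n), ws n p N * (if Disjoint N Y then (1 : ℝ) else 0) = (1 - p) ^ Y.card := by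
  have h := prod_id n p (fun w => if w ∈ Y then 0 else 1)
  have h1 : ∀ N : Finset (Fin n), ∏ w ∈ N, (if w ∈ Y then (0 : ℝ) else 1) =
      if Disjoint N Y then (1 : ℝ) else 0 := by
    intro N
    by_cases hd : Disjoint N Y
    · rw [if_pos hd]
      apply Finset.prod_eq_one
      intro w hw
      rw [if_neg (Finset.disjoint_left.1 hd hw)]
    · rw [if_neg hd]
      rw [Finset.not_disjoint_iff] at hd
      obtain ⟨w, hw, hw2⟩ := hd
      exact Finset.prod_eq_zero hw (by rw [if_pos hw2])
  simp_rw [h1] at h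
  rw [h]
  have h2 : ∀ w : Fin n, (1 - p + p * (if w ∈ Y then (0 : ℝ) else 1)) = if w ∈ Y then 1 - p else 1 := by
    intro w
    split_ifs <;> ring
  simp_rw [h2]
  rw [Finset.prod_ite_mem, Finset.univ_inter, Finset.prod_const]

theorem ind_ext_le {n : ℕ} (X Y : Finset (Fin (n + 1))) (hX : Fin.last n ∈ X)
    (K : SimpleGraph (Fin n)) (N : Finset (Fin n)) :
    ind X Y (ext K N) ≤ (if Disjoint N (low Y) then (1 : ℝ) else 0) * ind (low X) (low Y) K := by
  unfold ind
  by_cases h : ∀ x ∈ X, ∀ y ∈ Y, ¬ (ext K N).Adj x y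
  · rw [if_pos h, if_pos, if_pos]
    · norm_num
    · intro x hx y hy hxy
      exact h _ (mem_low.1 hx) _ (mem_low.1 hy) ((ext_adj_castSucc K N x y).2 hxy)
    · rw [Finset.disjoint_left]
      intro w hw hw2
      exact h _ hX _ (mem_low.1 hw2) ((ext_adj_last K N w).2 hw)
  · rw [if_neg h]
    apply mul_nonneg
    · split_ifs <;> norm_num
    · split_ifs <;> norm_num

theorem ind_ext_le' {n : ℕ} (X Y : Finset (Fin (n + 1)))
    (K : SimpleGraph (Fin n)) (N : Finset (Fin n)) :
    ind X Y (ext K N) ≤ ind (low X) (low Y) K := by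
  unfold ind
  by_cases h : ∀ x ∈ X, ∀ y ∈ Y, ¬ (ext K N).Adj x y
  · rw [if_pos h, if_pos]
    intro x hx y hy hxy
    exact h _ (mem_low.1 hx) _ (mem_low.1 hy) ((ext_adj_castSucc K N x y).2 hxy)
  · rw [if_neg h]
    split_ifs <;> norm_num

theorem step (hE : S_EXT) {n : ℕ} {p : ℝ} (h0 : 0 ≤ p) (h1 : p ≤ 1)
    (X Y : Finset (Fin (n + 1))) (hXY : Disjoint X Y) (hX : Fin.last n ∈ X)
    (ih : EG n p (ind (low X) (low Y)) ≤ (1 - p) ^ ((low X).card * (low Y).card)) :
    EG (n + 1) p (ind X Y) ≤ (1 - p) ^ (X.card * Y.card) := by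
  have hY : Fin.last n ∉ Y := Finset.disjoint_left.1 hXY hX
  have cX := card_low X
  have cY := card_low Y
  rw [if_pos hX] at cX
  rw [if_neg hY, add_zero] at cY
  rw [hE n p (ind X Y), cX, cY]
  have h2 : ∀ N : Finset (Fin n), ws n p N * EG n p (fun K => ind X Y (ext K N)) ≤
      (ws n p N * (if Disjoint N (low Y) then (1 : ℝ) else 0)) *
        (1 - p) ^ ((low X).card * (low Y).card) := by
    intro N
    rw [mul_assoc]
    apply mul_le_mul_of_nonneg_left _ (ws_nonneg h0 h1 N)
    have h3 : EG n p (fun K => ind X Y (ext K N)) ≤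
        EG n p (fun K => (if Disjoint N (low Y) then (1 : ℝ) else 0) * ind (low X) (low Y) K) :=
      EG_mono h0 h1 fun K => ind_ext_le X Y hX K N
    refine h3.trans ?_
    rw [EG_mul_left]
    apply mul_le_mul_of_nonneg_left ih
    split_ifs <;> norm_num
  refine (Finset.sum_le_sum fun N _ => h2 N).trans ?_
  rw [← Finset.sum_mul, sum_disj, ← pow_add]
  apply le_of_eq
  congr 1
  ring

theorem edge : S_EXT → S_ONE → S_EDGE := by
  intro hE hO n p X Y h0 h1 hXY
  change EG n p (ind X Y) ≤ _
  induction n with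
  | zero =>
    have hX : X = ∅ := Finset.eq_empty_of_forall_notMem fun x => x.elim0
    have h2 : EG 0 p (ind X Y) ≤ EG 0 p (fun _ => 1) := by
      apply EG_mono h0 h1
      intro G
      unfold ind
      split_ifs <;> norm_num
    rw [(hO 0 p).1] at h2
    rw [hX]
    rw [hX] at h2
    simpa using h2
  | succ n ih =>
    have hlow : Disjoint (low X) (low Y) := by
      rw [Finset.disjoint_left] at hXY ⊢
      intro x hx hy
      exact hXY (mem_low.1 hx) (mem_low.1 hy)
    have ih1 := ih (low X) (low Y) hlow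
    by_cases hX : Fin.last n ∈ X
    · exact step hE h0 h1 X Y hXY hX ih1
    · by_cases hY : Fin.last n ∈ Y
      · have ih2 : EG n p (ind (low Y) (low X)) ≤ (1 - p) ^ ((low Y).card * (low X).card) := by
          rw [mul_comm, EG_congr (fun G => ind_symm (low Y) (low X) G)]
          exact ih1
        have := step hE h0 h1 Y X hXY.symm hY ih2
        rw [mul_comm, EG_congr (fun G => ind_symm X Y G)]
        exact this
      · have cX := card_low X
        have cY := card_low Y
        rw [if_neg hX, add_zero] at cX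
        rw [if_neg hY, add_zero] at cY
        rw [hE n p (ind X Y), cX, cY]
        have h2 : ∀ N : Finset (Fin n), ws n p N * EG n p (fun K => ind X Y (ext K N)) ≤
            ws n p N * (1 - p) ^ ((low X).card * (low Y).card) := by
          intro N
          apply mul_le_mul_of_nonneg_left _ (ws_nonneg h0 h1 N)
          exact (EG_mono h0 h1 fun K => ind_ext_le' X Y K N).trans ih1
        refine (Finset.sum_le_sum fun N _ => h2 N).trans ?_
        rw [← Finset.sum_mul, (hO n p).2, one_mul]

end

end Pool.Agent.W883.PM
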